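import Mathlib

set_option autoImplicit false

namespace Pool.Agent.Q199.Sier

open Filter Topology

variable {𝕜 : Type} [RCLike 𝕜]

/-- The norm of a finitely supported sequence in the Sierpiński space of `f`: the supremum of
`∑ i ∈ C, |x i|` over the finite sets `C` of positive integers on which `f` is increasing. -/
noncomputable def cliqueNorm (f : ℕ → ℚ) (x : ℕ →₀ 𝕜) : ℝ :=
  ⨆ C : {C : Finset ℕ // StrictMonoOn f (C : Set ℕ)}, ∑ i ∈ C.1, ‖x i‖

lemma sum_le_support (x : ℕ →₀ 𝕜) (C : Finset ℕ) : ∑ i ∈ C, ‖x i‖ ≤ ∑ i ∈ x.support, ‖x i‖ := by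
  classical
  have h1 : ∑ i ∈ C, ‖x i‖ = ∑ i ∈ C ∩ x.support, ‖x i‖ := by
    symm
    refine Finset.sum_subset Finset.inter_subset_left fun i hi hi' => ?_
    have : i ∉ x.support := fun h => hi' (Finset.mem_inter.2 ⟨hi, h⟩)
    rw [Finsupp.notMem_support_iff.1 this, norm_zero]
  rw [h1]
  exact Finset.sum_le_sum_of_subset_of_nonneg Finset.inter_subset_right fun _ _ _ => norm_nonneg _

lemma bdd (f : ℕ → ℚ) (x : ℕ →₀ 𝕜) : BddAbove (Set.range
    fun C : {C : Finset ℕ // StrictMonoOn f (C : Set ℕ)} => ∑ i ∈ C.1, ‖x i‖) :=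
  ⟨∑ i ∈ x.support, ‖x i‖, by rintro _ ⟨C, rfl⟩; exact sum_le_support x C.1⟩

instance nonemptyChains (f : ℕ → ℚ) : Nonempty {C : Finset ℕ // StrictMonoOn f (C : Set ℕ)} :=
  ⟨⟨∅, by simp [StrictMonoOn]⟩⟩

lemma le_norm (f : ℕ → ℚ) (x : ℕ →₀ 𝕜) (C : Finset ℕ) (hC : StrictMonoOn f (C : Set ℕ)) :
    ∑ i ∈ C, ‖x i‖ ≤ cliqueNorm f x :=
  le_ciSup (bdd f x) (⟨C, hC⟩ : {C : Finset ℕ // StrictMonoOn f (C : Set ℕ)})

lemma exists_chain (f : ℕ → ℚ) (x : ℕ →₀ 𝕜) {r : ℝ} (h : r < cliqueNorm f x) :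
    ∃ C : Finset ℕ, StrictMonoOn f (C : Set ℕ) ∧ r < ∑ i ∈ C, ‖x i‖ := by
  obtain ⟨C, hC⟩ := exists_lt_of_lt_ciSup h
  exact ⟨C.1, C.2, hC⟩

lemma norm_le_support (f : ℕ → ℚ) (x : ℕ →₀ 𝕜) :
    cliqueNorm f x ≤ ∑ i ∈ x.support, ‖x i‖ :=
  ciSup_le fun C => sum_le_support x C.1

lemma coord_le (f : ℕ → ℚ) (x : ℕ →₀ 𝕜) (i : ℕ) : ‖x i‖ ≤ cliqueNorm f x := by
  have := le_norm f x {i} (by simp)
  simpa using this

/-- restriction of a mass to the part of a chain where the vector lives -/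
lemma mass_restrict (x : ℕ →₀ 𝕜) (C : Finset ℕ) (P : ℕ → Prop) [DecidablePred P]
    (h : ∀ i, ¬ P i → x i = 0) : ∑ i ∈ C, ‖x i‖ = ∑ i ∈ C.filter P, ‖x i‖ := by
  symm
  refine Finset.sum_subset (Finset.filter_subset _ _) fun i hi hi' => ?_
  have : ¬ P i := fun hp => hi' (Finset.mem_filter.2 ⟨hi, hp⟩)
  rw [h i this, norm_zero]

/-- gluing a chain in `[0, N]` and a higher chain in `(N, ∞)` -/
lemma glue (f : ℕ → ℚ) (x y : ℕ →₀ 𝕜) (N : ℕ) (hx : ∀ i, N < i → x i = 0)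
    (hy : ∀ i, i ≤ N → y i = 0) (C D : Finset ℕ) (hC : StrictMonoOn f (C : Set ℕ))
    (hD : StrictMonoOn f (D : Set ℕ)) (hCN : ∀ i ∈ C, i ≤ N) (hDN : ∀ i ∈ D, N < i)
    (hCD : ∀ a ∈ C, ∀ b ∈ D, f a < f b) :
    ∑ i ∈ C, ‖x i‖ + ∑ i ∈ D, ‖y i‖ ≤ cliqueNorm f (x + y) := by
  classical
  have hdisj : Disjoint C D := by
    rw [Finset.disjoint_left]
    intro i h1 h2
    exact absurd (hCN i h1) (not_le.2 (hDN i h2))
  have hch : StrictMonoOn f ((C ∪ D : Finset ℕ) : Set ℕ) := by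
    intro a ha b hb hab
    rw [Finset.mem_coe, Finset.mem_union] at ha hb
    rcases ha with ha | ha <;> rcases hb with hb | hb
    · exact hC ha hb hab
    · exact hCD a ha b hb
    · have h1 := hDN a ha
      have h2 := hCN b hb
      omega
    · exact hD ha hb hab
  refine le_trans (le_of_eq ?_) (le_norm f (x + y) (C ∪ D) hch)
  rw [Finset.sum_union hdisj]
  congr 1
  · refine Finset.sum_congr rfl fun i hi => ?_
    rw [Finsupp.add_apply, hy i (hCN i hi), add_zero]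
  · refine Finset.sum_congr rfl fun i hi => ?_
    rw [Finsupp.add_apply, hx i (hDN i hi), zero_add]

/-- splitting a chain which nearly norms `x + y` -/
lemma split (f : ℕ → ℚ) (x y : ℕ →₀ 𝕜) (P Q : ℕ → Prop) [DecidablePred P] [DecidablePred Q]
    (hx : ∀ i, ¬ P i → x i = 0) (hy : ∀ i, ¬ Q i → y i = 0) {r : ℝ}
    (h : r < cliqueNorm f (x + y)) :
    ∃ C : Finset ℕ, StrictMonoOn f (C : Set ℕ) ∧
      r < ∑ i ∈ C.filter P, ‖x i‖ + ∑ i ∈ C.filter Q, ‖y i‖ := by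
  obtain ⟨C, hC, hr⟩ := exists_chain f (x + y) h
  refine ⟨C, hC, hr.trans_le ?_⟩
  rw [← mass_restrict x C P hx, ← mass_restrict y C Q hy, ← Finset.sum_add_distrib]
  exact Finset.sum_le_sum fun i _ => by rw [Finsupp.add_apply]; exact norm_add_le _ _

lemma chain_filter {f : ℕ → ℚ} {C : Finset ℕ} (hC : StrictMonoOn f (C : Set ℕ))
    (P : ℕ → Prop) [DecidablePred P] : StrictMonoOn f ((C.filter P : Finset ℕ) : Set ℕ) :=
  hC.mono (by exact_mod_cast Finset.filter_subset P C)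

/-- The combinatorial obstruction to `ℓ₁ ⊕₀ ℓ₁`. -/
lemma comb1 (f : ℕ → ℚ) (u v w : ℕ →₀ 𝕜) (N M : ℕ) (hNM : N ≤ M)
    (hu : ∀ i, N < i → u i = 0) (hv : ∀ i, i ≤ N → v i = 0) (hv' : ∀ i, M < i → v i = 0)
    (hw : ∀ i, i ≤ M → w i = 0) {ε : ℝ} (hε0 : 0 < ε) (hε : ε ≤ 1 / 10)
    (a : 4 - ε ≤ cliqueNorm f (u + w)) (b : 2 - ε ≤ cliqueNorm f v)
    (c : cliqueNorm f (u + v) ≤ 2 + ε) (d : cliqueNorm f (v + w) ≤ 2 + ε)
    (e1 : cliqueNorm f u ≤ 2 + ε) (e2 : cliqueNorm f w ≤ 2 + ε) : False := by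
  classical
  obtain ⟨C, hC, hCm⟩ := split f u w (fun i => i ≤ N) (fun i => M < i)
    (fun i hi => hu i (not_le.1 hi)) (fun i hi => hw i (not_lt.1 hi))
    (r := 4 - 2 * ε) (by linarith)
  set C1 := C.filter (fun i => i ≤ N) with hC1
  set C2 := C.filter (fun i => M < i) with hC2
  have hch1 : StrictMonoOn f (C1 : Set ℕ) := chain_filter hC _
  have hch2 : StrictMonoOn f (C2 : Set ℕ) := chain_filter hC _
  have m1 : ∑ i ∈ C1, ‖u i‖ ≤ 2 + ε := (le_norm f u C1 hch1).trans e1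
  have m2 : ∑ i ∈ C2, ‖w i‖ ≤ 2 + ε := (le_norm f w C2 hch2).trans e2
  have n1 : C1.Nonempty := by
    rw [Finset.nonempty_iff_ne_empty]; intro h
    rw [h, Finset.sum_empty] at hCm; linarith
  have n2 : C2.Nonempty := by
    rw [Finset.nonempty_iff_ne_empty]; intro h
    rw [h, Finset.sum_empty] at hCm; linarith
  set p := C1.max' n1 with hp
  set q := C2.min' n2 with hq
  have hpC : p ∈ C1 := Finset.max'_mem _ _
  have hqC : q ∈ C2 := Finset.min'_mem _ _
  have hple : ∀ i ∈ C1, f i ≤ f p := fun i hi =>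
    hch1.monotoneOn hi hpC (Finset.le_max' _ _ hi)
  have hqle : ∀ i ∈ C2, f q ≤ f i := fun i hi =>
    hch2.monotoneOn hqC hi (Finset.min'_le _ _ hi)
  have hpN : p ≤ N := (Finset.mem_filter.1 hpC).2
  have hqM : M < q := (Finset.mem_filter.1 hqC).2
  have hpq : f p < f q := hC (Finset.mem_filter.1 hpC).1 (Finset.mem_filter.1 hqC).1 (by omega)
  obtain ⟨D, hD, hDm⟩ := exists_chain f v (r := 2 - 2 * ε) (by linarith)
  rw [mass_restrict v D (fun i => N < i ∧ i ≤ M) (by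
    intro i hi
    by_cases h1 : i ≤ N
    · exact hv i h1
    · exact hv' i (by by_contra h2; exact hi ⟨not_le.1 h1, not_lt.1 h2⟩))] at hDm
  set D' := D.filter (fun i => N < i ∧ i ≤ M) with hD'
  have hchD : StrictMonoOn f (D' : Set ℕ) := chain_filter hD _
  have g1 := glue f u v N hu hv C1 (D'.filter fun i => f p < f i) hch1 (chain_filter hchD _)
    (fun i hi => (Finset.mem_filter.1 hi).2)
    (fun i hi => (Finset.mem_filter.1 (Finset.mem_filter.1 hi).1).2.1)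
    (fun a ha b hb => (hple a ha).trans_lt (Finset.mem_filter.1 hb).2)
  have g2 := glue f v w M hv' hw (D'.filter fun i => f i < f q) C2 (chain_filter hchD _) hch2
    (fun i hi => (Finset.mem_filter.1 (Finset.mem_filter.1 hi).1).2.2)
    (fun i hi => (Finset.mem_filter.1 hi).2)
    (fun a ha b hb => ((Finset.mem_filter.1 ha).2).trans_le (hqle b hb))
  have hsum : ∑ i ∈ D', ‖v i‖ ≤ ∑ i ∈ D'.filter (fun i => f p < f i), ‖v i‖ +
      ∑ i ∈ D'.filter (fun i => f i < f q), ‖v i‖ := by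
    have hs1 : ∑ i ∈ D'.filter (fun i => f p < f i), ‖v i‖ =
        ∑ i ∈ D', if f p < f i then ‖v i‖ else 0 := Finset.sum_filter _ _
    have hs2 : ∑ i ∈ D'.filter (fun i => f i < f q), ‖v i‖ =
        ∑ i ∈ D', if f i < f q then ‖v i‖ else 0 := Finset.sum_filter _ _
    rw [hs1, hs2, ← Finset.sum_add_distrib]
    refine Finset.sum_le_sum fun i _ => ?_
    by_cases h1 : f p < f i
    · simp only [h1, if_true]
      split_ifs
      · linarith [norm_nonneg (v i)]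
      · linarith
    · have h2 : f i < f q := lt_of_le_of_lt (not_lt.1 h1) hpq
      simp [h1, h2]
  linarith

/-- The combinatorial obstruction to `c₀ ⊕₁ c₀`. -/
lemma comb2 (f : ℕ → ℚ) (u v u' v' : ℕ →₀ 𝕜) (N M K : ℕ) (hNM : N ≤ M) (hMK : M ≤ K)
    (hu : ∀ i, N < i → u i = 0) (hv1 : ∀ i, i ≤ N → v i = 0) (hv2 : ∀ i, M < i → v i = 0)
    (hu1 : ∀ i, i ≤ M → u' i = 0) (hu2 : ∀ i, K < i → u' i = 0)
    (hv' : ∀ i, i ≤ K → v' i = 0) {ε : ℝ} (hε0 : 0 < ε) (hε : ε ≤ 1 / 10)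
    (a : 2 - ε ≤ cliqueNorm f (v + u')) (b : 2 - ε ≤ cliqueNorm f (u + v'))
    (c : cliqueNorm f (v + v') ≤ 1 + ε) (d : cliqueNorm f (u + u') ≤ 1 + ε)
    (e1 : cliqueNorm f u ≤ 1 + ε) (e2 : cliqueNorm f v ≤ 1 + ε)
    (e3 : cliqueNorm f u' ≤ 1 + ε) (e4 : cliqueNorm f v' ≤ 1 + ε) : False := by
  classical
  obtain ⟨D, hD, hDm⟩ := split f v u' (fun i => N < i ∧ i ≤ M) (fun i => M < i ∧ i ≤ K)
    (by
      intro i hi
      by_cases h1 : i ≤ N
      · exact hv1 i h1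
      · exact hv2 i (by by_contra h2; exact hi ⟨not_le.1 h1, not_lt.1 h2⟩))
    (by
      intro i hi
      by_cases h1 : i ≤ M
      · exact hu1 i h1
      · exact hu2 i (by by_contra h2; exact hi ⟨not_le.1 h1, not_lt.1 h2⟩))
    (r := 2 - 2 * ε) (by linarith)
  obtain ⟨H, hH, hHm⟩ := split f u v' (fun i => i ≤ N) (fun i => K < i)
    (fun i hi => hu i (not_le.1 hi)) (fun i hi => hv' i (not_lt.1 hi))
    (r := 2 - 2 * ε) (by linarith)
  set D1 := D.filter (fun i => N < i ∧ i ≤ M) with hD1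
  set D2 := D.filter (fun i => M < i ∧ i ≤ K) with hD2
  set H1 := H.filter (fun i => i ≤ N) with hH1
  set H2 := H.filter (fun i => K < i) with hH2
  have cD1 : StrictMonoOn f (D1 : Set ℕ) := chain_filter hD _
  have cD2 : StrictMonoOn f (D2 : Set ℕ) := chain_filter hD _
  have cH1 : StrictMonoOn f (H1 : Set ℕ) := chain_filter hH _
  have cH2 : StrictMonoOn f (H2 : Set ℕ) := chain_filter hH _
  have mD1 := (le_norm f v D1 cD1).trans e2
  have mD2 := (le_norm f u' D2 cD2).trans e3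
  have mH1 := (le_norm f u H1 cH1).trans e1
  have mH2 := (le_norm f v' H2 cH2).trans e4
  have nD1 : D1.Nonempty := by
    rw [Finset.nonempty_iff_ne_empty]; intro h
    rw [h, Finset.sum_empty] at hDm; linarith
  set p := D1.max' nD1 with hp
  have hpD : p ∈ D1 := Finset.max'_mem _ _
  have hple : ∀ i ∈ D1, f i ≤ f p := fun i hi =>
    cD1.monotoneOn hi hpD (Finset.le_max' _ _ hi)
  have g1 := glue f v v' M hv2 (fun i hi => hv' i (hi.trans hMK)) D1
    (H2.filter fun i => f p < f i) cD1 (chain_filter cH2 _)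
    (fun i hi => (Finset.mem_filter.1 hi).2.2)
    (fun i hi => lt_of_le_of_lt hMK (Finset.mem_filter.1 (Finset.mem_filter.1 hi).1).2)
    (fun a ha b hb => (hple a ha).trans_lt (Finset.mem_filter.1 hb).2)
  obtain ⟨h, hh, hhp⟩ : ∃ h ∈ H2, f h ≤ f p := by
    by_contra hcon
    push Not at hcon
    have : H2.filter (fun i => f p < f i) = H2 := Finset.filter_true_of_mem hcon
    rw [this] at g1
    linarith
  have g2 := glue f u u' N hu (fun i hi => hu1 i (hi.trans hNM)) H1 D2 cH1 cD2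
    (fun i hi => (Finset.mem_filter.1 hi).2)
    (fun i hi => lt_of_le_of_lt hNM (Finset.mem_filter.1 hi).2.1)
    (by
      intro a ha b hb
      have h1 : f a < f h := hH (Finset.mem_filter.1 ha).1 (Finset.mem_filter.1 hh).1 (by
        have := (Finset.mem_filter.1 ha).2
        have := (Finset.mem_filter.1 hh).2
        omega)
      have h2 : f p < f b := hD (Finset.mem_filter.1 hpD).1 (Finset.mem_filter.1 hb).1 (by
        have := (Finset.mem_filter.1 hpD).2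
        have := (Finset.mem_filter.1 hb).2
        omega)
      exact (h1.trans_le hhp).trans h2)
  linarith

/-- Extraction of a nearly disjoint difference from a bounded sequence. -/
lemma extract (f : ℕ → ℚ) {X : Type*} [NormedAddCommGroup X] [NormedSpace 𝕜 X]
    (J : (ℕ →₀ 𝕜) →ₗ[𝕜] X) (hJ : ∀ x, ‖J x‖ = cliqueNorm f x) (hd : DenseRange J)
    (x : ℕ → X) (hx : ∀ n, ‖x n‖ ≤ 1) (N m₀ : ℕ) {ε : ℝ} (hε : 0 < ε) :
    ∃ n m, m₀ ≤ n ∧ n < m ∧ ∃ z : ℕ →₀ 𝕜, (∀ i, i ≤ N → z i = 0) ∧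
      ‖x n - x m - J z‖ ≤ ε := by
  classical
  have hε4 : 0 < ε / 4 := by linarith
  have happ : ∀ n, ∃ y : ℕ →₀ 𝕜, ‖x n - J y‖ < ε / 4 := by
    intro n
    obtain ⟨y, hy⟩ := hd.exists_dist_lt (x n) hε4
    exact ⟨y, by rwa [dist_eq_norm] at hy⟩
  choose y hy using happ
  have hyb : ∀ n i, ‖y n i‖ ≤ 1 + ε / 4 := by
    intro n i
    refine (coord_le f (y n) i).trans ?_
    rw [← hJ]
    have h1 : ‖J (y n)‖ ≤ ‖x n‖ + ‖x n - J (y n)‖ := by
      have : J (y n) = x n - (x n - J (y n)) := by abel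
      calc ‖J (y n)‖ = ‖x n - (x n - J (y n))‖ := by rw [← this]
        _ ≤ _ := norm_sub_le _ _
    linarith [hx n, hy n]
  -- the initial coordinates of a subsequence converge
  let g : ℕ → (Fin (N + 1) → 𝕜) := fun n i => y n i
  have hgb : ∀ n, g n ∈ Metric.closedBall (0 : Fin (N + 1) → 𝕜) (1 + ε / 4) := by
    intro n
    rw [mem_closedBall_zero_iff]
    exact (pi_norm_le_iff_of_nonneg (by linarith)).2 fun i => hyb n i
  obtain ⟨a, _, φ, hφ, hφa⟩ :=
    (isCompact_closedBall (0 : Fin (N + 1) → 𝕜) (1 + ε / 4)).tendsto_subseq hgb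
  have hcau := hφa.cauchySeq
  rw [Metric.cauchySeq_iff] at hcau
  have hδ : 0 < ε / (4 * (N + 1)) := by positivity
  obtain ⟨K, hK⟩ := hcau _ hδ
  obtain ⟨n, hn⟩ : ∃ n, n = φ (max K m₀) := ⟨_, rfl⟩
  obtain ⟨m, hm⟩ : ∃ m, m = φ (max K m₀ + 1) := ⟨_, rfl⟩
  have hnm : n < m := by rw [hn, hm]; exact hφ (Nat.lt_succ_self _)
  have hm0 : m₀ ≤ n := by rw [hn]; exact (le_max_right _ _).trans (hφ.id_le _)
  have hclose : ∀ i, i ≤ N → ‖y n i - y m i‖ ≤ ε / (4 * (N + 1)) := by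
    intro i hi
    have h1 := hK (max K m₀) (le_max_left _ _) (max K m₀ + 1)
      ((le_max_left _ _).trans (Nat.le_succ _))
    rw [dist_eq_norm] at h1
    have h2 := norm_le_pi_norm ((g ∘ φ) (max K m₀) - (g ∘ φ) (max K m₀ + 1))
      (⟨i, Nat.lt_succ_of_le hi⟩ : Fin (N + 1))
    have h3 : ((g ∘ φ) (max K m₀) - (g ∘ φ) (max K m₀ + 1)) (⟨i, Nat.lt_succ_of_le hi⟩ :
        Fin (N + 1)) = y n i - y m i := by
      rw [hn, hm]; rfl
    rw [h3] at h2
    exact h2.trans h1.le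
  let D : ℕ →₀ 𝕜 := y n - y m
  let z : ℕ →₀ 𝕜 := D.filter (fun i => N < i)
  let r : ℕ →₀ 𝕜 := D.filter (fun i => ¬ N < i)
  have hzr : z + r = D := Finsupp.filter_add_filter_not D _
  have hr : cliqueNorm f r ≤ ε / 4 := by
    refine (norm_le_support f r).trans ?_
    have hsub : r.support ⊆ Finset.range (N + 1) := by
      intro i hi
      have h1 : i ∈ D.support ∧ ¬ N < i := by
        simpa [r, Finsupp.support_filter] using hi
      exact Finset.mem_range.2 (by omega)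
    calc ∑ i ∈ r.support, ‖r i‖ ≤ ∑ i ∈ Finset.range (N + 1), ‖r i‖ :=
          Finset.sum_le_sum_of_subset_of_nonneg hsub fun _ _ _ => norm_nonneg _
      _ ≤ ∑ i ∈ Finset.range (N + 1), ε / (4 * (N + 1)) := by
          refine Finset.sum_le_sum fun i hi => ?_
          have hiN : i ≤ N := Nat.lt_succ_iff.1 (Finset.mem_range.1 hi)
          have h1 : r i = D i := Finsupp.filter_apply_pos _ _ (not_lt.2 hiN)
          rw [h1]
          exact hclose i hiN
      _ = ε / 4 := by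
          rw [Finset.sum_const, Finset.card_range, nsmul_eq_mul]
          push_cast
          field_simp
  refine ⟨n, m, hm0, hnm, z, fun i hi => Finsupp.filter_apply_neg _ _ (not_lt.2 hi), ?_⟩
  have h1 : x n - x m - J z = (x n - J (y n)) - (x m - J (y m)) + J r := by
    have h2 : J z + J r = J (y n) - J (y m) := by
      rw [← map_add, hzr, map_sub]
    have h3 : J z = J (y n) - J (y m) - J r := by rw [← h2]; abel
    rw [h3]; abel
  rw [h1]
  calc ‖(x n - J (y n)) - (x m - J (y m)) + J r‖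
      ≤ ‖(x n - J (y n)) - (x m - J (y m))‖ + ‖J r‖ := norm_add_le _ _
    _ ≤ (‖x n - J (y n)‖ + ‖x m - J (y m)‖) + ‖J r‖ := by gcongr; exact norm_sub_le _ _
    _ ≤ (ε / 4 + ε / 4) + ε / 4 := by
        rw [hJ]
        gcongr
        · exact (hy n).le
        · exact (hy m).le
    _ ≤ ε := by linarith

/-- a bound for the support of a finitely supported function -/
lemma exists_bound (z : ℕ →₀ 𝕜) (N : ℕ) : ∃ M, N ≤ M ∧ ∀ i, M < i → z i = 0 := by
  refine ⟨max N (z.support.sup id), le_max_left _ _, fun i hi => ?_⟩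
  by_contra h
  have h1 : i ∈ z.support := Finsupp.mem_support_iff.2 h
  have h2 : i ≤ z.support.sup id := Finset.le_sup (f := id) h1
  have := le_max_right N (z.support.sup id)
  omega

/-- comparison of norms -/
lemma norm_close {X : Type*} [NormedAddCommGroup X] {a b : X} {ε : ℝ} (h : ‖a - b‖ ≤ ε) :
    ‖a‖ - ε ≤ ‖b‖ ∧ ‖b‖ ≤ ‖a‖ + ε := by
  have h1 := abs_norm_sub_norm_le a b
  have h2 := abs_le.1 (h1.trans h)
  constructor <;> linarith

end Pool.Agent.Q199.Sier
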